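import Pool.Agent.W5h93.GR.Main
import Pool.Agent.TH133.PW.Ev

/-!
# The sign conjecture and the Grothendieck group of motives
-/

open CategoryTheory AlgebraicGeometry

universe u v

namespace Pool.Agent.W5h93.GR

open Pool.Agent.H914 Pool.Agent.H914.VarClass Pool.Agent.H914.VarClass.Obj
  Pool.Agent.H914.WeilCohomology Pool.Agent.W550.B Pool.Agent.H447 Pool.Agent.TH133.PW

variable {k : Type u} [Field k] {𝒱 : VarClass k} {ops : CycleOps 𝒱}
  {W : WeilCohomology.{u, v} ops}

/-- A correspondence commutes with the functions of the weight. -/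
lemma KOp.scal_comm {X Y : 𝒱.Obj} {a b : ℤ} {φ : W.H X →ₗ[W.K] W.H Y}
    (hφ : φ ∈ KOp W X Y (a - b)) (c : ℤ → W.K) (x : W.H X) :
    scal (W.isInternal Y) (fun d => c (d + 2 * b)) (φ x) =
      φ (scal (W.isInternal X) (fun d => c (d + 2 * a)) x) := by
  have key : (scal (W.isInternal Y) (fun d => c (d + 2 * b))) ∘ₗ φ =
      φ ∘ₗ (scal (W.isInternal X) (fun d => c (d + 2 * a))) := by
    apply gr_ext (W.isInternal X)
    intro i x hx
    rw [LinearMap.comp_apply, LinearMap.comp_apply, scal_apply _ _ hx, map_smul]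
    have h1 := KOp.isHom hφ i x (by rw [grZ_natCast]; exact hx)
    by_cases hi : 0 ≤ (i : ℤ) + 2 * (a - b)
    · obtain ⟨j, hj⟩ := Int.eq_ofNat_of_zero_le hi
      rw [hj, grZ_natCast] at h1
      rw [scal_apply _ _ h1, ← hj]
      congr 2
      ring
    · rw [grZ_of_neg (by omega)] at h1
      rw [(Submodule.mem_bot _).1 h1, map_zero, smul_zero]
  exact LinearMap.congr_fun key x

section Wt

variable {ι κ : Type} [Fintype ι] [DecidableEq ι] [Fintype κ] [DecidableEq κ]
  {f : ι → 𝒱.Obj × ℤ} {g : κ → 𝒱.Obj × ℤ}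

/-- The operator which acts on the classes of weight `m` as the multiplication by `c m`. -/
noncomputable def wtOp (W : WeilCohomology.{u, v} ops) (c : ℤ → W.K) (f : ι → 𝒱.Obj × ℤ) :
    Module.End W.K (VF W f) :=
  LinearMap.pi fun i =>
    scal (W.isInternal (f i).1) (fun d => c (d + 2 * (f i).2)) ∘ₗ LinearMap.proj i

omit [Fintype ι] [DecidableEq ι] in
lemma wtOp_apply (c : ℤ → W.K) (x : VF W f) (i : ι) :
    wtOp W c f x i = scal (W.isInternal (f i).1) (fun d => c (d + 2 * (f i).2)) (x i) := rfl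

omit [Fintype κ] [DecidableEq κ] in
lemma IsMor.wtOp_comm {F : VF W f →ₗ[W.K] VF W g} (hF : IsMor F) (c : ℤ → W.K) (x : VF W f) :
    wtOp W c g (F x) = F (wtOp W c f x) := by
  funext j
  rw [wtOp_apply, apply_eq_sum F x j, apply_eq_sum F _ j, map_sum]
  apply Finset.sum_congr rfl
  intro i _
  rw [wtOp_apply]
  exact KOp.scal_comm (hF i j) c (x i)

omit [Fintype ι] in
lemma ent_wtOp_same (c : ℤ → W.K) (i : ι) :
    ent (wtOp W c f) i i = scal (W.isInternal (f i).1) (fun d => c (d + 2 * (f i).2)) := by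
  apply LinearMap.ext
  intro x
  rw [ent_apply, wtOp_apply, Pi.single_eq_same]

omit [Fintype ι] in
lemma ent_wtOp_ne (c : ℤ → W.K) {i j : ι} (hij : i ≠ j) : ent (wtOp W c f) i j = 0 := by
  apply LinearMap.ext
  intro x
  rw [ent_apply, wtOp_apply, Pi.single_eq_of_ne (Ne.symm hij), map_zero, LinearMap.zero_apply]

omit [Fintype ι] in
lemma isMor_wtOp_iff (c : ℤ → W.K) : IsMor (wtOp W c f) ↔ ∀ i,
    scal (W.isInternal (f i).1) (fun d => c (d + 2 * (f i).2)) ∈ KOp W (f i).1 (f i).1 0 := by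
  constructor
  · intro h i
    have := h i i
    rw [ent_wtOp_same] at this
    exact KOp.cast this (by ring)
  · intro h i j
    by_cases hij : i = j
    · subst hij
      rw [ent_wtOp_same]
      exact KOp.cast (h i) (by ring)
    · rw [ent_wtOp_ne c hij]
      exact Submodule.zero_mem _

/-- The functions of the weight are algebraic on one side if they are on the other. -/
theorem isMor_wtOp_of_bijective (c : ℤ → W.K) {S : VF W f →ₗ[W.K] VF W g}
    {S' : VF W g →ₗ[W.K] VF W f} (hS : IsMor S) (hS' : IsMor S') (hSb : Function.Bijective S)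
    (hSb' : Function.Bijective S') (h : IsMor (wtOp W c g)) : IsMor (wtOp W c f) := by
  set T : Module.End W.K (VF W f) := S' ∘ₗ S with hT
  have hTm : IsMor T := hS'.comp hS
  obtain ⟨P, hP⟩ := exists_poly_inv (R := T) (M := ⊤) (fun _ _ => Submodule.mem_top)
    (fun a _ h0 => (hSb'.1.comp hSb.1) (by
      change T a = T 0
      rw [h0, map_zero]))
  have h1 : wtOp W c f = Polynomial.aeval T P ∘ₗ (S' ∘ₗ wtOp W c g ∘ₗ S) := by
    apply LinearMap.ext
    intro x
    rw [LinearMap.comp_apply, LinearMap.comp_apply, LinearMap.comp_apply, hS.wtOp_comm c x]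
    exact ((hP _ Submodule.mem_top).1).symm
  rw [h1]
  exact (hTm.aeval P).comp (hS'.comp (h.comp hS))

end Wt

/-- The sign conjecture in terms of operators. -/
lemma signStd_iff_kop (X : 𝒱.Obj) :
    SignStd W X ↔ scal (W.isInternal X) (fun d => if Even d then (1 : W.K) else 0) ∈ KOp W X X 0 := by
  constructor
  · rintro ⟨P, hP, hP'⟩
    have h1 : W.corr (W.cl (X.prod X) P) = evenProj (W.isInternal X) := isEvenProj_iff.1 hP'
    have h2 : W.corr (W.cl (X.prod X) P) ∈ KOp W X X 0 := KOp.gen (by ring) hP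
    rw [h1] at h2
    exact h2
  · intro h
    apply signStd_of_span
    rw [EvenProjInSpan, span_cycleOperators0]
    exact ⟨_, h, isEvenProj_iff.2 rfl⟩

/-- **The sign conjecture depends only on the class in the completed Grothendieck group.** -/
theorem signStd_iff {m r : ℕ} {X : Fin m → 𝒱.Obj} {a : Fin m → ℤ} {Y : Fin r → 𝒱.Obj}
    {b : Fin r → ℤ} {w : ℤ} (ha : ∀ s, w ≤ a s) (hb : ∀ t, w ≤ b t)
    (h : classOf X a - classOf Y b ∈ relations W w) :
    (∀ s, SignStd W (X s)) ↔ ∀ t, SignStd W (Y t) := by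
  obtain ⟨S, S', hS, hS', hSb, hSb'⟩ := exists_bijective ha hb h
  set c : ℤ → W.K := fun m => if Even m then 1 else 0 with hc
  have key : ∀ {n : ℕ} (Z : Fin n → 𝒱.Obj) (e : Fin n → ℤ), (∀ s, SignStd W (Z s)) ↔
      IsMor (wtOp W c (fun s => (Z s, e s))) := by
    intro n Z e
    rw [isMor_wtOp_iff]
    apply forall_congr'
    intro s
    rw [signStd_iff_kop]
    have : (fun d : ℕ => c (d + 2 * (Z s, e s).2)) = fun d : ℕ => if Even d then (1 : W.K) else 0 := by
      funext d
      have h1 : Even ((d : ℤ) + 2 * (Z s, e s).2) ↔ Even d := by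
        rw [Int.even_add]
        simp
      simp only [hc, h1]
    rw [this]
  rw [key X a, key Y b]
  exact ⟨isMor_wtOp_of_bijective c hS' hS hSb' hSb, isMor_wtOp_of_bijective c hS hS' hSb hSb'⟩

end Pool.Agent.W5h93.GR
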