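import Pool.Agent.W550.B.AddDefs

/-!
# The Grothendieck group of homological motives: definitions
-/

open CategoryTheory AlgebraicGeometry

universe u v

namespace Pool.Agent.W5h93.GR

open Pool.Agent.H914 Pool.Agent.H914.VarClass Pool.Agent.H914.VarClass.Obj
  Pool.Agent.H914.WeilCohomology Pool.Agent.W550.B

variable {k : Type u} [Field k] {𝒱 : VarClass k} {ops : CycleOps 𝒱}

/-- The operator with the matrix `F`: the sum of the `H(X s)` is sent to the sum of the
`H(Y t)`. -/
noncomputable def applyMatrix (W : WeilCohomology.{u, v} ops) {m r : ℕ} {X : Fin m → 𝒱.Obj}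
    {Y : Fin r → 𝒱.Obj} (F : ∀ s t, W.H ((X s).prod (Y t))) (x : ∀ s, W.H (X s)) (t : Fin r) :
    W.H (Y t) :=
  ∑ s, W.corr (F s t) (x s)

/-- The operator with the matrix `G` is a left inverse of the operator with the matrix `F`. -/
def IsLeftInverseMatrix (W : WeilCohomology.{u, v} ops) {m r : ℕ} {X : Fin m → 𝒱.Obj}
    {Y : Fin r → 𝒱.Obj} (G : ∀ t s, W.H ((Y t).prod (X s))) (F : ∀ s t, W.H ((X s).prod (Y t))) :
    Prop :=
  ∀ x, applyMatrix W G (applyMatrix W F x) = x

/-- Some matrix of combinations of algebraic correspondences, which preserves the weights, is an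
isomorphism from the direct sum of the `H(X s)(-a s)` to the direct sum of the `H(Y t)(-b t)`, and
its inverse is given by such a matrix as well: the homological motives `⨁ h(X s)(-a s)` and
`⨁ h(Y t)(-b t)`, with coefficients in the coefficient field of `W`, are isomorphic. -/
def IsoFamilies (W : WeilCohomology.{u, v} ops) {m r : ℕ} (X : Fin m → 𝒱.Obj) (a : Fin m → ℤ)
    (Y : Fin r → 𝒱.Obj) (b : Fin r → ℤ) : Prop :=
  ∃ F G, IsAlgMatrix W (X := X) a (Y := Y) b F ∧ IsAlgMatrix W (X := Y) b (Y := X) a G ∧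
    IsLeftInverseMatrix W G F ∧ IsLeftInverseMatrix W F G

/-- The element `∑ [X s](-a s)` of the free abelian group on the pairs of a variety and an integer
(a variety with a Tate twist). -/
noncomputable def classOf {m : ℕ} (X : Fin m → 𝒱.Obj) (a : Fin m → ℤ) : (𝒱.Obj × ℤ) →₀ ℤ :=
  ∑ s, Finsupp.single (X s, a s) 1

/-- The differences of the classes of isomorphic direct sums of twists. -/
def isoRelations (W : WeilCohomology.{u, v} ops) : Set ((𝒱.Obj × ℤ) →₀ ℤ) :=
  {x | ∃ (m r : ℕ) (X : Fin m → 𝒱.Obj) (a : Fin m → ℤ) (Y : Fin r → 𝒱.Obj) (b : Fin r → ℤ),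
    IsoFamilies W X a Y b ∧ x = classOf X a - classOf Y b}

/-- The classes `[Z](-c)` with `dim Z + c < w`: all weights of `H(Z)(-c)` are less than `2 w`. -/
def lowClasses (𝒱 : VarClass k) (w : ℤ) : Set ((𝒱.Obj × ℤ) →₀ ℤ) :=
  {x | ∃ (Z : 𝒱.Obj) (c : ℤ), (Z.dim : ℤ) + c < w ∧ x = Finsupp.single (Z, c) 1}

/-- The relations of the Grothendieck group of homological motives, modulo the motives `h(Z)(-c)`
with `dim Z + c < w`. Two elements are equal in the completed Grothendieck group if they are equal
modulo `relations W w` for all integers `w`. -/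
noncomputable def relations (W : WeilCohomology.{u, v} ops) (w : ℤ) : AddSubgroup ((𝒱.Obj × ℤ) →₀ ℤ) :=
  AddSubgroup.closure (isoRelations W ∪ lowClasses 𝒱 w)

end Pool.Agent.W5h93.GR
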