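import Pool.Agent.W5h93.GR.Cancel
import Pool.Agent.W5h93.GR.Defs

/-!
# The conjecture B and the Grothendieck group of motives
-/

open CategoryTheory AlgebraicGeometry

universe u v

namespace Pool.Agent.W5h93.GR

open Pool.Agent.H914 Pool.Agent.H914.VarClass Pool.Agent.H914.VarClass.Obj
  Pool.Agent.H914.WeilCohomology Pool.Agent.W550.B

variable {k : Type u} [Field k] {𝒱 : VarClass k} {ops : CycleOps 𝒱}
  {W : WeilCohomology.{u, v} ops}

section Cls

variable {T : Type*} {ι κ : Type} [Fintype ι] [Fintype κ]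

/-- The class of a family in the free abelian group. -/
noncomputable def cls (f : ι → T) : T →₀ ℤ := ∑ i, Finsupp.single (f i) 1

lemma cls_apply [DecidableEq T] (f : ι → T) (t : T) :
    cls f t = Fintype.card {i // f i = t} := by
  rw [cls, Finsupp.finsetSum_apply, Fintype.card_subtype, Finset.card_filter]
  push_cast
  apply Finset.sum_congr rfl
  intro i _
  rw [Finsupp.single_apply]

lemma exists_equiv {f : ι → T} {g : κ → T} (h : cls f = cls g) :
    ∃ e : ι ≃ κ, ∀ i, g (e i) = f i := by
  classical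
  have h1 : ∀ t, Nonempty ({i // f i = t} ≃ {j // g j = t}) := by
    intro t
    apply Fintype.card_eq.1
    have := congrArg (fun F => F t) h
    simp only [cls_apply] at this
    exact_mod_cast this
  exact ⟨Equiv.ofFiberEquiv fun t => (h1 t).some, fun i => Equiv.ofFiberEquiv_map _ i⟩

lemma cls_sum (f : ι → T) (g : κ → T) : cls (Sum.elim f g) = cls f + cls g := by
  rw [cls, Fintype.sum_sum_type]
  rfl

end Cls

lemma matrixOp_eq {m r : ℕ} {X : Fin m → 𝒱.Obj} {Y : Fin r → 𝒱.Obj}
    (F : ∀ s t, W.H ((X s).prod (Y t))) (x : ∀ s, W.H (X s)) :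
    matrixOp W F x = applyMatrix W F x := by
  funext t
  change (∑ s', W.corr (F s' t) ∘ₗ LinearMap.proj s' :
    (∀ s, W.H (X s)) →ₗ[W.K] W.H (Y t)) x = _
  rw [LinearMap.sum_apply]
  rfl

/-- From the Grothendieck group to isomorphisms. -/
theorem exists_iso {w : ℤ} {x : (𝒱.Obj × ℤ) →₀ ℤ} (hx : x ∈ relations W w) :
    ∃ (ι κ : Type) (_ : Fintype ι) (_ : Fintype κ) (_ : DecidableEq ι) (_ : DecidableEq κ)
      (f : ι → 𝒱.Obj × ℤ) (g : κ → 𝒱.Obj × ℤ), IsoAbove W w f g ∧ x = cls f - cls g := by
  induction hx using AddSubgroup.closure_induction with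
  | mem x hx =>
    rcases hx with ⟨m, r, X, a, Y, b, ⟨F, G, hF, hG, h1, h2⟩, rfl⟩ | ⟨Z, c, hc, rfl⟩
    · refine ⟨Fin m, Fin r, inferInstance, inferInstance, inferInstance, inferInstance,
        fun s => (X s, a s), fun t => (Y t, b t), ⟨matrixOp W F, matrixOp W G, ?_, ?_,
          fun x _ => ?_, fun x _ => ?_⟩, rfl⟩
      · intro s t
        have h3 : ent (f := fun s => (X s, a s)) (g := fun t => (Y t, b t)) (matrixOp W F) s t =
            W.corr (F s t) := by
          apply LinearMap.ext
          intro x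
          rw [ent_apply]
          change (∑ s', W.corr (F s' t) ∘ₗ LinearMap.proj s' :
            (∀ s, W.H (X s)) →ₗ[W.K] W.H (Y t)) (Pi.single s x) = _
          rw [LinearMap.sum_apply, Finset.sum_eq_single s]
          · rw [LinearMap.comp_apply, LinearMap.proj_apply, Pi.single_eq_same]
          · intro s' _ hs'
            rw [LinearMap.comp_apply, LinearMap.proj_apply, Pi.single_eq_of_ne hs', map_zero]
          · intro h
            exact absurd (Finset.mem_univ _) h
        rw [h3, mem_KOp_iff]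
        refine ⟨F s t, ?_, rfl⟩
        have := hF s t
        rwa [add_sub_assoc] at this
      · intro s t
        have h3 : ent (f := fun t => (Y t, b t)) (g := fun s => (X s, a s)) (matrixOp W G) s t =
            W.corr (G s t) := by
          apply LinearMap.ext
          intro x
          rw [ent_apply]
          change (∑ s', W.corr (G s' t) ∘ₗ LinearMap.proj s' :
            (∀ s, W.H (Y s)) →ₗ[W.K] W.H (X t)) (Pi.single s x) = _
          rw [LinearMap.sum_apply, Finset.sum_eq_single s]
          · rw [LinearMap.comp_apply, LinearMap.proj_apply, Pi.single_eq_same]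
          · intro s' _ hs'
            rw [LinearMap.comp_apply, LinearMap.proj_apply, Pi.single_eq_of_ne hs', map_zero]
          · intro h
            exact absurd (Finset.mem_univ _) h
        rw [h3, mem_KOp_iff]
        refine ⟨G s t, ?_, rfl⟩
        have := hG s t
        rwa [add_sub_assoc] at this
      · exact (by rw [matrixOp_eq, matrixOp_eq]; exact h1 x : matrixOp W G (matrixOp W F x) = x)
      · exact (by rw [matrixOp_eq, matrixOp_eq]; exact h2 x : matrixOp W F (matrixOp W G x) = x)
    · refine ⟨Fin 1, Fin 0, inferInstance, inferInstance, inferInstance, inferInstance,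
        fun _ => (Z, c), fun t => t.elim0, ⟨0, 0, IsMor.zero, IsMor.zero, fun x hx => ?_,
          fun x hx => ?_⟩, ?_⟩
      · rw [hi_eq_bot (fun _ => hc)] at hx
        rw [(Submodule.mem_bot _).1 hx, map_zero]
        rfl
      · funext i
        exact i.elim0
      · simp [cls]
  | zero =>
    refine ⟨Fin 0, Fin 0, inferInstance, inferInstance, inferInstance, inferInstance,
      fun t => t.elim0, fun t => t.elim0, IsoAbove.refl, ?_⟩
    rw [sub_self]
  | add x y _ _ hx hy =>
    obtain ⟨ι, κ, _, _, _, _, f, g, h1, rfl⟩ := hx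
    obtain ⟨ι', κ', _, _, _, _, f', g', h1', rfl⟩ := hy
    refine ⟨ι ⊕ ι', κ ⊕ κ', inferInstance, inferInstance, inferInstance, inferInstance,
      Sum.elim f f', Sum.elim g g', h1.sum h1', ?_⟩
    rw [cls_sum, cls_sum]
    abel
  | neg x _ hx =>
    obtain ⟨ι, κ, _, _, _, _, f, g, h1, rfl⟩ := hx
    exact ⟨κ, ι, inferInstance, inferInstance, inferInstance, inferInstance, g, f, h1.symm,
      by rw [neg_sub]⟩

/-- **Isomorphisms from equality in the Grothendieck group.** -/
theorem exists_bijective {m r : ℕ} {X : Fin m → 𝒱.Obj} {a : Fin m → ℤ} {Y : Fin r → 𝒱.Obj}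
    {b : Fin r → ℤ} {w : ℤ} (ha : ∀ s, w ≤ a s) (hb : ∀ t, w ≤ b t)
    (h : classOf X a - classOf Y b ∈ relations W w) :
    ∃ (S : VF W (fun s => (X s, a s)) →ₗ[W.K] VF W (fun t => (Y t, b t)))
      (S' : VF W (fun t => (Y t, b t)) →ₗ[W.K] VF W (fun s => (X s, a s))),
      IsMor S ∧ IsMor S' ∧ Function.Bijective S ∧ Function.Bijective S' := by
  obtain ⟨ι, κ, _, _, _, _, f, g, h1, h2⟩ := exists_iso h
  set fX : Fin m → 𝒱.Obj × ℤ := fun s => (X s, a s) with hfX
  set gY : Fin r → 𝒱.Obj × ℤ := fun t => (Y t, b t) with hgY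
  have h3 : cls (Sum.elim fX g) = cls (Sum.elim gY f) := by
    rw [cls_sum, cls_sum]
    have h4 : cls fX - cls gY = cls f - cls g := h2
    have h5 : cls fX = cls f - cls g + cls gY := by rw [← h4]; abel
    rw [h5]; abel
  obtain ⟨e, he⟩ := exists_equiv h3
  have h5 : IsoAbove W w (Sum.elim fX g) (Sum.elim gY f) := IsoAbove.reindex e he
  have h6 : IsoAbove W w (Sum.elim gY f) (Sum.elim gY g) := IsoAbove.refl.sum h1
  exact cancel ha hb (h5.trans h6)

/-- **The conjecture B depends only on the class in the completed Grothendieck group.** -/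
theorem lefschetzB_iff {m r : ℕ} {X : Fin m → 𝒱.Obj} {a : Fin m → ℤ} {Y : Fin r → 𝒱.Obj}
    {b : Fin r → ℤ} {D : ∀ s, (X s).Cycles} {E : ∀ t, (Y t).Cycles}
    (hD : ∀ s, IsLefschetzDivisor W (X s) (D s)) (hE : ∀ t, IsLefschetzDivisor W (Y t) (E t))
    {w : ℤ} (ha : ∀ s, w ≤ a s) (hb : ∀ t, w ≤ b t)
    (h : classOf X a - classOf Y b ∈ relations W w) :
    (∀ s, LefschetzB W (X s) (D s)) ↔ ∀ t, LefschetzB W (Y t) (E t) := by
  obtain ⟨S, S', hS, hS', hSb, hSb'⟩ := exists_bijective ha hb h
  have hX : ∀ j, ∃ D, (X j).IsCyc 1 D ∧ HardLefschetz W (X j) D := fun j => ⟨D j, hD j⟩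
  have hY : ∀ i, ∃ D, (Y i).IsCyc 1 D ∧ HardLefschetz W (Y i) D := fun i => ⟨E i, hE i⟩
  rw [forall_congr' (fun j => lefschetzB_iff_injB (hD j)),
    forall_congr' (fun i => lefschetzB_iff_injB (hE i))]
  constructor
  · intro hB
    have e1 : tot (X := Y) (Y := X) (fun i j => ent S j i) = S := by
      apply LinearMap.ext
      intro x
      funext i
      rw [tot_apply, apply_eq_sum S x i]
    refine additivity (X := Y) (Y := X) (m := b) (l := a) (G := fun i j => ent S j i)
      (fun i j => hS j i) ?_ hY hX hB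
    rw [e1]
    exact hSb
  · intro hB
    have e1 : tot (X := X) (Y := Y) (fun i j => ent S' j i) = S' := by
      apply LinearMap.ext
      intro x
      funext i
      rw [tot_apply, apply_eq_sum S' x i]
    refine additivity (X := X) (Y := Y) (m := a) (l := b) (G := fun i j => ent S' j i)
      (fun i j => hS' j i) ?_ hX hY hB
    rw [e1]
    exact hSb'

end Pool.Agent.W5h93.GR
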